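import Pool.Agent.J6H63.Cop.Stm

/-!
# Module CRIT
-/

set_option autoImplicit false

open MeasureTheory ProbabilityTheory Filter Topology
open Cop764

namespace Pool.Agent.J6H13.Cop

open Pool.Agent.J6H63.Cop

lemma K_nonneg (D : Data) (n : ℕ) : 0 ≤ D.K n := ENNReal.toReal_nonneg

lemma phi_nonneg (w : ℕ → ℝ) (a b : ℕ) : 0 ≤ phi w a b := by
  unfold phi
  positivity

lemma phi_self (w : ℕ → ℝ) (a : ℕ) : phi w a a = 1 := by
  unfold phi S
  simp

lemma G_nonneg (D : Data) (w : ℕ → ℝ) (i j : ℕ) : 0 ≤ G D.K w i j :=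
  (M_G.J_G D.K w (K_nonneg D)).2.1 i j

/-- `G ≤ F` -/
lemma G_le_F (D : Data) (w : ℕ → ℝ) {a b : ℕ} (hab : a ≤ b) : G D.K w a b ≤ F D.K w a b := by
  unfold F
  have h1 : phi w a a * G D.K w a b * phi w b b ≤
      ∑ k ∈ Finset.Icc a b, phi w a a * G D.K w a k * phi w k b :=
    Finset.single_le_sum (f := fun k => phi w a a * G D.K w a k * phi w k b)
      (fun k _ => mul_nonneg (mul_nonneg (phi_nonneg _ _ _) (G_nonneg D _ _ _)) (phi_nonneg _ _ _))
      (Finset.mem_Icc.2 ⟨hab, le_rfl⟩)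
  have h2 : ∑ k ∈ Finset.Icc a b, phi w a a * G D.K w a k * phi w k b ≤
      ∑ i ∈ Finset.Icc a b, ∑ k ∈ Finset.Icc i b, phi w a i * G D.K w i k * phi w k b :=
    Finset.single_le_sum
      (f := fun i => ∑ k ∈ Finset.Icc i b, phi w a i * G D.K w i k * phi w k b)
      (fun i _ => Finset.sum_nonneg fun k _ =>
        mul_nonneg (mul_nonneg (phi_nonneg _ _ _) (G_nonneg D _ _ _)) (phi_nonneg _ _ _))
      (Finset.mem_Icc.2 ⟨le_rfl, hab⟩)
  calc G D.K w a b = phi w a a * G D.K w a b * phi w b b := by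
        rw [phi_self, phi_self, one_mul, mul_one]
    _ ≤ _ := h1.trans h2

lemma gam_pos (D : Data) : 0 < gam D.α := by
  have := D.hα
  unfold gam
  positivity

lemma gam_lt (D : Data) : gam D.α < 1 := by
  have := D.hα
  unfold gam
  exact inv_lt_one_of_one_lt₀ (by linarith)

lemma rpow_le_one_add {x g : ℝ} (hx : 0 ≤ x) (hg0 : 0 < g) (hg : g < 1) : x ^ g ≤ 1 + x := by
  rcases le_total x 1 with h | h
  · have := Real.rpow_le_one hx h hg0.le
    linarith
  · have : x ^ g ≤ x ^ (1 : ℝ) := Real.rpow_le_rpow_of_exponent_le h hg.le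
    rw [Real.rpow_one] at this
    linarith

/-- Jensen for weights of sum at most one -/
lemma jensen {ι : Type} (s : Finset ι) (wt x : ι → ℝ) {g : ℝ} (hg0 : 0 < g) (hg : g < 1)
    (hw : ∀ i ∈ s, 0 ≤ wt i) (hx : ∀ i ∈ s, 0 ≤ x i) (hs : ∑ i ∈ s, wt i ≤ 1) :
    ∑ i ∈ s, wt i * x i ^ g ≤ (∑ i ∈ s, wt i * x i) ^ g := by
  set W := ∑ i ∈ s, wt i with hW
  have hW0 : 0 ≤ W := Finset.sum_nonneg hw
  rcases hW0.eq_or_lt with h0 | hpos
  · have hz : ∀ i ∈ s, wt i = 0 := (Finset.sum_eq_zero_iff_of_nonneg hw).1 h0.symm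
    have h1 : ∑ i ∈ s, wt i * x i ^ g = 0 :=
      Finset.sum_eq_zero fun i hi => by rw [hz i hi, zero_mul]
    rw [h1]
    exact Real.rpow_nonneg (Finset.sum_nonneg fun i hi => mul_nonneg (hw i hi) (hx i hi)) _
  · have hsum : ∑ i ∈ s, wt i / W = 1 := by
      rw [← Finset.sum_div, div_self hpos.ne']
    have hJ := (Real.concaveOn_rpow hg0.le hg.le).le_map_sum (t := s) (w := fun i => wt i / W)
      (p := x) (fun i hi => div_nonneg (hw i hi) hpos.le) hsum (fun i hi => hx i hi)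
    simp only [smul_eq_mul] at hJ
    have hS0 : 0 ≤ ∑ i ∈ s, wt i * x i := Finset.sum_nonneg fun i hi => mul_nonneg (hw i hi) (hx i hi)
    have e1 : ∑ i ∈ s, wt i / W * x i ^ g = (∑ i ∈ s, wt i * x i ^ g) / W := by
      rw [Finset.sum_div]
      exact Finset.sum_congr rfl fun i _ => by ring
    have e2 : ∑ i ∈ s, wt i / W * x i = (∑ i ∈ s, wt i * x i) / W := by
      rw [Finset.sum_div]
      exact Finset.sum_congr rfl fun i _ => by ring
    rw [e1, e2, div_le_iff₀ hpos, Real.div_rpow hS0 hpos.le] at hJ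
    refine hJ.trans ?_
    have h2 : 0 ≤ (∑ i ∈ s, wt i * x i) ^ g := Real.rpow_nonneg hS0 _
    have h3 : W ≤ W ^ g := by
      calc W = W ^ (1 : ℝ) := (Real.rpow_one W).symm
        _ ≤ W ^ g := Real.rpow_le_rpow_of_exponent_ge hpos hs hg.le
    have h4 : 0 < W ^ g := Real.rpow_pos_of_pos hpos _
    rw [div_mul_eq_mul_div, div_le_iff₀ h4]
    exact mul_le_mul_of_nonneg_left h3 h2

lemma G_meas (D : Data) (h : ℝ) (a b : ℕ) : Measurable (fun ω : ℕ → ℝ => G D.K (D.w h ω) a b) :=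
  (M_meas.J_meas D h a b).1

lemma G_int (D : Data) (h : ℝ) (hh : 0 ≤ h) {a b : ℕ} (hab : a ≤ b) :
    Integrable (fun ω : ℕ → ℝ => G D.K (D.w h ω) a b) D.P := by
  rcases hab.eq_or_lt with h0 | hlt
  · subst h0
    have : (fun ω : ℕ → ℝ => G D.K (D.w h ω) a a) = fun _ => (1 : ℝ) := by
      funext ω
      exact (M_G.J_G D.K (D.w h ω) (K_nonneg D)).1 a
    rw [this]
    exact integrable_const _
  · obtain ⟨C1, -, hC⟩ := M_EF.J_EF D
    obtain ⟨d, rfl⟩ : ∃ d, b = a + d := ⟨b - a, by omega⟩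
    refine (hC h hh a d (by omega)).1.mono' (G_meas D h _ _).aestronglyMeasurable ?_
    refine Filter.Eventually.of_forall fun ω => ?_
    rw [Real.norm_of_nonneg (G_nonneg D _ _ _)]
    exact G_le_F D _ hab

lemma Gpow_int (D : Data) (h : ℝ) (hh : 0 ≤ h) {a b : ℕ} (hab : a ≤ b) :
    Integrable (fun ω : ℕ → ℝ => G D.K (D.w h ω) a b ^ gam D.α) D.P := by
  refine ((integrable_const (1 : ℝ)).add (G_int D h hh hab)).mono'
    ((G_meas D h a b).pow_const _).aestronglyMeasurable ?_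
  refine Filter.Eventually.of_forall fun ω => ?_
  rw [Real.norm_of_nonneg (Real.rpow_nonneg (G_nonneg D _ _ _) _)]
  exact rpow_le_one_add (G_nonneg D _ _ _) (gam_pos D) (gam_lt D)

/-- stationarity -/
lemma Gpow_shift (D : Data) (h : ℝ) (k j : ℕ) :
    ∫ ω, G D.K (D.w h ω) k (j + k) ^ gam D.α ∂D.P = ∫ ω, G D.K (D.w h ω) 0 j ^ gam D.α ∂D.P := by
  rw [← M_fe.fe833_shift D k (fun ω => G D.K (D.w h ω) 0 j ^ gam D.α) ((G_meas D h 0 j).pow_const _)]
  apply integral_congr_ae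
  refine Filter.Eventually.of_forall fun ω => ?_
  show G D.K (D.w h ω) k (j + k) ^ gam D.α = G D.K (fun n => D.w h ω (n + k)) 0 j ^ gam D.α
  rw [M_loc.J_loc.1, zero_add]

/-- MODULE CRIT -/
theorem crit : CritT := by
  classical
  intro hfrac hgrow D h hh X hX
  by_contra hf
  rw [not_lt] at hf
  obtain ⟨C, n0, hC⟩ := hfrac D h hh hf
  have hγ0 := gam_pos D
  have hγ1 := gam_lt D
  obtain ⟨N, hN, hlt⟩ := hgrow X.W X.s X.len
    (fun w => X.wt w * ∫ ω, X.B w ω ^ gam D.α ∂D.P) X.one_le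
    (fun w hw => mul_nonneg (X.wt_nonneg w hw) (integral_nonneg fun ω =>
      Real.rpow_nonneg (X.nonneg w hw ω) _)) hX
    (fun N => ∫ ω, G D.K (D.w h ω) 0 N ^ gam D.α ∂D.P)
    (by
      have : (fun ω : ℕ → ℝ => G D.K (D.w h ω) 0 0 ^ gam D.α) = fun _ => (1 : ℝ) := by
        funext ω
        rw [(M_G.J_G D.K (D.w h ω) (K_nonneg D)).1 0, Real.one_rpow]
      show ∫ ω, G D.K (D.w h ω) 0 0 ^ gam D.α ∂D.P = 1
      rw [this]
      simp)
    (fun N => integral_nonneg fun ω => Real.rpow_nonneg (G_nonneg D _ _ _) _)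
    (by
      intro N hN
      set s' := X.s.filter (fun w => X.len w ≤ N) with hs'
      -- one word
      have hone : ∀ w ∈ s', Integrable (fun ω => X.B w ω ^ gam D.α *
            G D.K (D.w h ω) (X.len w) N ^ gam D.α) D.P ∧
          (∫ ω, X.B w ω ^ gam D.α ∂D.P) * ∫ ω, G D.K (D.w h ω) 0 (N - X.len w) ^ gam D.α ∂D.P =
          ∫ ω, X.B w ω ^ gam D.α * G D.K (D.w h ω) (X.len w) N ^ gam D.α ∂D.P := by
        intro w hw
        rw [hs', Finset.mem_filter] at hw
        obtain ⟨hw, hwN⟩ := hw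
        have hind : IndepFun (fun ω => X.B w ω ^ gam D.α)
            (fun ω => G D.K (D.w h ω) (X.len w) N ^ gam D.α) D.P := by
          apply M_indep.J_indep D.ν (Finset.Ioc 0 (X.len w)) (Finset.Ioc (X.len w) N)
          · rw [Finset.disjoint_left]
            intro n h1 h2
            rw [Finset.mem_Ioc] at h1 h2
            omega
          · exact (X.meas w hw).pow_const _
          · exact (G_meas D h _ _).pow_const _
          · intro ω ω' hω
            show X.B w ω ^ gam D.α = X.B w ω' ^ gam D.α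
            rw [X.loc w hw ω ω' hω]
          · intro ω ω' hω
            show G D.K (D.w h ω) (X.len w) N ^ gam D.α = G D.K (D.w h ω') (X.len w) N ^ gam D.α
            rw [(M_loc.J_loc.2.2.2 D.K (D.w h ω) (D.w h ω') (X.len w) N (by
              intro n hn
              show -2 * D.lam * (ω n + h) = -2 * D.lam * (ω' n + h)
              rw [hω n hn])).1]
        have hi1 := X.int w hw
        have hi2 := Gpow_int D h hh hwN
        refine ⟨hind.integrable_mul hi1 hi2, ?_⟩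
        have e1 := Gpow_shift D h (X.len w) (N - X.len w)
        rw [Nat.sub_add_cancel hwN] at e1
        rw [← e1]
        exact (hind.integral_mul_eq_mul_integral hi1.aestronglyMeasurable
          hi2.aestronglyMeasurable).symm
      have e2 : ∑ w ∈ s', X.wt w * (∫ ω, X.B w ω ^ gam D.α ∂D.P) *
          ∫ ω, G D.K (D.w h ω) 0 (N - X.len w) ^ gam D.α ∂D.P =
          ∫ ω, ∑ w ∈ s', X.wt w * (X.B w ω ^ gam D.α *
            G D.K (D.w h ω) (X.len w) N ^ gam D.α) ∂D.P := by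
        rw [integral_finsetSum _ (fun w hw => (hone w hw).1.const_mul _)]
        refine Finset.sum_congr rfl fun w hw => ?_
        rw [integral_const_mul, ← (hone w hw).2]
        ring
      show ∑ w ∈ s', X.wt w * (∫ ω, X.B w ω ^ gam D.α ∂D.P) *
          ∫ ω, G D.K (D.w h ω) 0 (N - X.len w) ^ gam D.α ∂D.P ≤
        ∫ ω, G D.K (D.w h ω) 0 N ^ gam D.α ∂D.P
      rw [e2]
      refine integral_mono (integrable_finsetSum _ fun w hw => (hone w hw).1.const_mul _)
        (Gpow_int D h hh (Nat.zero_le _)) fun ω => ?_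
      have hsub : s' ⊆ X.s := Finset.filter_subset _ _
      have hJ := jensen s' X.wt (fun w => X.B w ω * G D.K (D.w h ω) (X.len w) N) hγ0 hγ1
        (fun w hw => X.wt_nonneg w (hsub hw))
        (fun w hw => mul_nonneg (X.nonneg w (hsub hw) ω) (G_nonneg D _ _ _))
        ((Finset.sum_le_sum_of_subset_of_nonneg hsub fun w hw _ => X.wt_nonneg w hw).trans X.wt_sum)
      have e3 : ∑ w ∈ s', X.wt w * (X.B w ω ^ gam D.α * G D.K (D.w h ω) (X.len w) N ^ gam D.α) =
          ∑ w ∈ s', X.wt w * (X.B w ω * G D.K (D.w h ω) (X.len w) N) ^ gam D.α := by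
        refine Finset.sum_congr rfl fun w hw => ?_
        rw [Real.mul_rpow (X.nonneg w (hsub hw) ω) (G_nonneg D _ _ _)]
      show ∑ w ∈ s', X.wt w * (X.B w ω ^ gam D.α * G D.K (D.w h ω) (X.len w) N ^ gam D.α) ≤
        G D.K (D.w h ω) 0 N ^ gam D.α
      rw [e3]
      refine hJ.trans (Real.rpow_le_rpow ?_ ?_ hγ0.le)
      · exact Finset.sum_nonneg fun w hw => mul_nonneg (X.wt_nonneg w (hsub hw))
          (mul_nonneg (X.nonneg w (hsub hw) ω) (G_nonneg D _ _ _))
      · refine le_trans (le_of_eq ?_) (X.dom ω N hN)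
        refine Finset.sum_congr rfl fun w _ => by ring)
    C n0
  exact absurd (hC N hN) (not_le.2 hlt)

end Pool.Agent.J6H13.Cop
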