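import Pool.Agent.J6H13.Cop.Crit

/-!
# Module PROD
-/

set_option autoImplicit false

open MeasureTheory ProbabilityTheory Filter Topology
open Cop764

namespace Pool.Agent.J6H13.Cop

open Pool.Agent.J6H63.Cop

lemma phi_meas (D : Data) (h : ℝ) (a b : ℕ) : Measurable (fun ω : ℕ → ℝ => phi (D.w h ω) a b) := by
  unfold phi
  exact ((measurable_const.add (Real.measurable_exp.comp (M_meas.J_meas D h a b).2.2))).div_const _

lemma phi_int0 (D : Data) (h : ℝ) (hh : 0 ≤ h) {a b : ℕ} (hab : a ≤ b) :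
    Integrable (fun ω : ℕ → ℝ => phi (D.w h ω) a b) D.P := by
  rcases hab.eq_or_lt with h0 | hlt
  · subst h0
    simp only [phi_self]
    exact integrable_const _
  · obtain ⟨C1, -, hC⟩ := M_EF.J_EF D
    obtain ⟨c0, n0, hK⟩ := M_K.J_K D
    obtain ⟨d, rfl⟩ : ∃ d, b = a + d := ⟨b - a, by omega⟩
    refine (hC h hh a d (by omega)).1.mono' (phi_meas D h _ _).aestronglyMeasurable ?_
    refine Filter.Eventually.of_forall fun ω => ?_
    rw [Real.norm_of_nonneg (phi_nonneg _ _ _)]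
    exact (M_Fbd.J_Fbd D.K (D.w h ω) D.α c0 n0 hK a (a + d) hab).1

lemma S_shift (D : Data) (h : ℝ) (ω : ℕ → ℝ) (a b : ℕ) :
    S (D.w h ω) a b = S (D.w 0 ω) a b + -2 * D.lam * h * ((Finset.Ioc a b).card : ℝ) := by
  unfold S Data.w
  rw [mul_comm (-2 * D.lam * h), ← nsmul_eq_mul, ← Finset.sum_const, ← Finset.sum_add_distrib]
  refine Finset.sum_congr rfl fun n _ => by ring

lemma phi_int (D : Data) (h : ℝ) {a b : ℕ} (hab : a ≤ b) :
    Integrable (fun ω : ℕ → ℝ => phi (D.w h ω) a b) D.P := by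
  set c : ℝ := Real.exp (-2 * D.lam * h * ((Finset.Ioc a b).card : ℝ)) with hc
  have hc0 : 0 < c := Real.exp_pos _
  refine ((phi_int0 D 0 le_rfl hab).const_mul (1 + c)).mono' (phi_meas D h _ _).aestronglyMeasurable ?_
  refine Filter.Eventually.of_forall fun ω => ?_
  rw [Real.norm_of_nonneg (phi_nonneg _ _ _)]
  unfold phi
  rw [S_shift, Real.exp_add, ← hc]
  have := Real.exp_pos (S (D.w 0 ω) a b)
  nlinarith

lemma phipow_int (D : Data) (h : ℝ) {a b : ℕ} (hab : a ≤ b) :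
    Integrable (fun ω : ℕ → ℝ => phi (D.w h ω) a b ^ gam D.α) D.P := by
  refine ((integrable_const (1 : ℝ)).add (phi_int D h hab)).mono'
    ((phi_meas D h a b).pow_const _).aestronglyMeasurable ?_
  refine Filter.Eventually.of_forall fun ω => ?_
  rw [Real.norm_of_nonneg (Real.rpow_nonneg (phi_nonneg _ _ _) _)]
  exact rpow_le_one_add (phi_nonneg _ _ _) (gam_pos D) (gam_lt D)

lemma phipow_shift (D : Data) (h : ℝ) (k j : ℕ) :
    ∫ ω, phi (D.w h ω) k (k + j) ^ gam D.α ∂D.P = ph D h j := by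
  unfold ph
  rw [← M_fe.fe833_shift D k (fun ω => phi (D.w h ω) 0 j ^ gam D.α) ((phi_meas D h 0 j).pow_const _)]
  apply integral_congr_ae
  refine Filter.Eventually.of_forall fun ω => ?_
  show phi (D.w h ω) k (k + j) ^ gam D.α = phi (fun n => D.w h ω (n + k)) 0 j ^ gam D.α
  unfold phi
  rw [M_loc.J_loc.2.2.1, zero_add, add_comm j k]

lemma phi_loc (w w' : ℕ → ℝ) (a b : ℕ) (h : ∀ n ∈ Finset.Ioc a b, w n = w' n) :
    phi w a b = phi w' a b := by
  unfold phi S
  rw [Finset.sum_congr rfl h]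

lemma st_castSucc {M : ℕ} (n : Fin (M + 1) → ℕ) (i : Fin M) :
    st n i.castSucc = st (fun j : Fin M => n j.castSucc) i := by
  unfold st
  rw [Fin.Iio_castSucc, Finset.sum_map]
  rfl

lemma st_last {M : ℕ} (n : Fin (M + 1) → ℕ) :
    st n (Fin.last M) = ∑ j : Fin M, n j.castSucc := by
  unfold st
  rw [Fin.Iio_last_eq_map, Finset.sum_map]
  rfl

lemma st_add_le {M : ℕ} (n : Fin M → ℕ) (i : Fin M) : st n i + n i ≤ ∑ j, n j := by
  unfold st
  rw [add_comm, ← Finset.sum_insert (by simp : i ∉ Finset.Iio i)]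
  exact Finset.sum_le_sum_of_subset (Finset.subset_univ _)

lemma Bw_loc {M : ℕ} (n : Fin M → ℕ) (w w' : ℕ → ℝ)
    (h : ∀ m ∈ Finset.Ioc 0 (∑ j, n j), w m = w' m) : Bw w n = Bw w' n := by
  unfold Bw
  refine Finset.prod_congr rfl fun i _ => phi_loc _ _ _ _ fun m hm => h m ?_
  have := st_add_le n i
  rw [Finset.mem_Ioc] at hm ⊢
  omega

lemma Bw_nonneg {M : ℕ} (w : ℕ → ℝ) (n : Fin M → ℕ) : 0 ≤ Bw w n :=
  Finset.prod_nonneg fun _ _ => phi_nonneg _ _ _

lemma Bw_succ {M : ℕ} (w : ℕ → ℝ) (n : Fin (M + 1) → ℕ) :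
    Bw w n = Bw w (fun j : Fin M => n j.castSucc) *
      phi w (∑ j : Fin M, n j.castSucc) (∑ j : Fin M, n j.castSucc + n (Fin.last M)) := by
  unfold Bw
  rw [Fin.prod_univ_castSucc, st_last]
  congr 1
  refine Finset.prod_congr rfl fun i _ => ?_
  rw [st_castSucc]

lemma Bw_meas (D : Data) (h : ℝ) {M : ℕ} (n : Fin M → ℕ) :
    Measurable (fun ω : ℕ → ℝ => Bw (D.w h ω) n) := by
  unfold Bw
  exact Finset.measurable_fun_prod _ fun i _ => phi_meas D h _ _

theorem prod_aux (D : Data) (h : ℝ) : ∀ (M : ℕ) (n : Fin M → ℕ),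
    Integrable (fun ω => (Bw (D.w h ω) n) ^ gam D.α) D.P ∧
      ∫ ω, (Bw (D.w h ω) n) ^ gam D.α ∂D.P = ∏ i, ph D h (n i) := by
  intro M
  induction M with
  | zero =>
    intro n
    have : (fun ω : ℕ → ℝ => (Bw (D.w h ω) n) ^ gam D.α) = fun _ => (1 : ℝ) := by
      funext ω
      simp [Bw]
    rw [this]
    refine ⟨integrable_const _, by simp⟩
  | succ M ih =>
    intro n
    obtain ⟨h1, h2⟩ := ih (fun j : Fin M => n j.castSucc)
    set s := ∑ j : Fin M, n j.castSucc with hs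
    have e1 : (fun ω : ℕ → ℝ => (Bw (D.w h ω) n) ^ gam D.α) = fun ω =>
        Bw (D.w h ω) (fun j : Fin M => n j.castSucc) ^ gam D.α *
          phi (D.w h ω) s (s + n (Fin.last M)) ^ gam D.α := by
      funext ω
      rw [Bw_succ, Real.mul_rpow (Bw_nonneg _ _) (phi_nonneg _ _ _)]
    have h3 := phipow_int D h (Nat.le_add_right s (n (Fin.last M)))
    have hind : IndepFun (fun ω => Bw (D.w h ω) (fun j : Fin M => n j.castSucc) ^ gam D.α)
        (fun ω => phi (D.w h ω) s (s + n (Fin.last M)) ^ gam D.α) D.P := by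
      apply M_indep.J_indep D.ν (Finset.Ioc 0 s) (Finset.Ioc s (s + n (Fin.last M)))
      · rw [Finset.disjoint_left]
        intro m g1 g2
        rw [Finset.mem_Ioc] at g1 g2
        omega
      · exact (Bw_meas D h _).pow_const _
      · exact (phi_meas D h _ _).pow_const _
      · intro ω ω' hω
        show Bw (D.w h ω) _ ^ gam D.α = Bw (D.w h ω') _ ^ gam D.α
        rw [Bw_loc _ (D.w h ω) (D.w h ω') (by
          intro m hm
          show -2 * D.lam * (ω m + h) = -2 * D.lam * (ω' m + h)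
          rw [hω m hm])]
      · intro ω ω' hω
        show phi (D.w h ω) s (s + n (Fin.last M)) ^ gam D.α =
          phi (D.w h ω') s (s + n (Fin.last M)) ^ gam D.α
        rw [phi_loc (D.w h ω) (D.w h ω') _ _ (by
          intro m hm
          show -2 * D.lam * (ω m + h) = -2 * D.lam * (ω' m + h)
          rw [hω m hm])]
    rw [e1]
    refine ⟨hind.integrable_mul h1 h3, ?_⟩
    have h4 := hind.integral_mul_eq_mul_integral h1.aestronglyMeasurable h3.aestronglyMeasurable
    rw [Fin.prod_univ_castSucc, ← h2, ← phipow_shift D h s (n (Fin.last M))]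
    exact h4

/-- MODULE PROD -/
theorem prod : ProdT := fun D h M n => prod_aux D h M n

end Pool.Agent.J6H13.Cop
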